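import Pool.Agent.P.MP_df4ecf_al.Main

namespace Pool.Agent.Results.MP_df4ecf_al.IA3NotQuadratic

open Pool.Agent.P.MP_df4ecf_al

/-- The kernel of the natural map from the free Lie ring on the degree one part onto the lower
central series Lie ring of the IA-automorphism group of rank three is not generated by its degree
two part, not even up to torsion. -/
theorem result : ¬ QuadraticUpToTorsion (inclOne (IA 3)) :=
  main

end Pool.Agent.Results.MP_df4ecf_al.IA3NotQuadratic
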