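import Pool.Agent.P.MP_df4ecf_al.Q2.All

namespace Pool.Agent.Results.MP_df4ecf_al.IAnNotQuadratic

open Pool.Agent.P.MP_df4ecf_al

/-- For every rank at least three, the kernel of the natural map from the free Lie ring on the
degree one part onto the lower central series Lie ring of the IA-automorphism group is not the
Lie ideal generated by its degree two part. -/
theorem result (n : ℕ) (hn : 3 ≤ n) :
    (FreeLieRing.extend (inclOne (IA n))).ker ≠ quadIdeal (inclOne (IA n)) :=
  Q2.main_all hn

end Pool.Agent.Results.MP_df4ecf_al.IAnNotQuadratic
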