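import Pool.Agent.P.MP_df4ecf_al.Q1.Gen

namespace Pool.Agent.Results.MP_df4ecf_al.PSigmaNotQuadratic

open Pool.Agent.P.MP_df4ecf_al

/-- For every rank at least four, the kernel of the natural map from the free Lie ring on the
degree one part onto the lower central series Lie ring of the basis-conjugating automorphism group
is not the Lie ideal generated by its degree two part. -/
theorem result (n : ℕ) (hn : 4 ≤ n) :
    (FreeLieRing.extend (inclOne (PSigma n))).ker ≠ quadIdeal (inclOne (PSigma n)) :=
  Q1.main_all hn

end Pool.Agent.Results.MP_df4ecf_al.PSigmaNotQuadratic
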